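import Mathlib

/-! Existence of a square integrable function on the circle with prescribed lacunary Fourier
coefficients. -/

set_option autoImplicit false

open MeasureTheory Set Filter Topology
open scoped ENNReal Real

namespace Pool.Agent.R247.BM

local instance fact2pi : Fact (0 < 2 * π) := ⟨by positivity⟩

/-- the frequencies -/
def fr (N j : ℕ) : ℕ := 2 * (4 ^ j * N)

lemma fr_inj {N : ℕ} (hN : 0 < N) : Function.Injective (fun j : ℕ => ((fr N j : ℕ) : ℤ)) := by
  intro a b h
  have h0 : ((fr N a : ℕ) : ℤ) = ((fr N b : ℕ) : ℤ) := h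
  have h1 : fr N a = fr N b := by exact_mod_cast h0
  unfold fr at h1
  have h2 : 4 ^ a * N = 4 ^ b * N := by omega
  have h3 : 4 ^ a = 4 ^ b := Nat.eq_of_mul_eq_mul_right hN h2
  exact Nat.pow_right_injective (le_refl 2 |>.trans (by norm_num)) h3

/-- the coefficient sequence -/
noncomputable def cf (N : ℕ) : ℤ → ℂ :=
  Function.extend (fun j : ℕ => ((fr N j : ℕ) : ℤ)) (fun j : ℕ => (1 / ((j : ℂ) + 1))) 0

lemma cf_fr {N : ℕ} (hN : 0 < N) (j : ℕ) : cf N (fr N j) = 1 / ((j : ℂ) + 1) :=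
  (fr_inj hN).extend_apply _ _ j

lemma cf_of_nonpos {N : ℕ} (hN : 0 < N) {n : ℤ} (hn : n ≤ 0) : cf N n = 0 := by
  unfold cf
  rw [Function.extend_apply']
  · rfl
  · rintro ⟨j, hj⟩
    have : 0 < fr N j := by unfold fr; positivity
    have : (0 : ℤ) < (fr N j : ℤ) := by exact_mod_cast this
    omega

lemma cf_mem {N : ℕ} (hN : 0 < N) : Memℓp (cf N) 2 := by
  rw [memℓp_gen_iff (by norm_num)]
  have h : Summable ((fun n : ℤ => ‖cf N n‖ ^ (2 : ℝ≥0∞).toReal) ∘
      (fun j : ℕ => ((fr N j : ℕ) : ℤ))) := by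
    have h0 : Summable (fun j : ℕ => (1 : ℝ) / ((j : ℝ) + 1) ^ 2) := by
      have := (summable_nat_add_iff 1).2 (Real.summable_one_div_nat_pow.2 (le_refl 2 |>.trans_lt' (by norm_num) : 1 < 2))
      simpa using this
    refine h0.congr fun j => ?_
    simp only [Function.comp]
    rw [cf_fr hN]
    have : ‖(1 : ℂ) / ((j : ℂ) + 1)‖ = 1 / ((j : ℝ) + 1) := by
      rw [norm_div, norm_one]
      congr 1
      have : ((j : ℂ) + 1) = (((j : ℝ) + 1 : ℝ) : ℂ) := by push_cast; rfl
      rw [this, Complex.norm_real, Real.norm_of_nonneg (by positivity)]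
    rw [this]
    simp
  refine ((fr_inj hN).summable_iff ?_).1 h
  intro x hx
  have : cf N x = 0 := by
    unfold cf
    rw [Function.extend_apply']
    · rfl
    · rintro ⟨j, hj⟩
      exact hx ⟨j, hj⟩
  rw [this]
  simp

/-- the square integrable function on the circle -/
noncomputable def omL (N : ℕ) (hN : 0 < N) :
    Lp ℂ 2 (@AddCircle.haarAddCircle (2 * π) _) :=
  (fourierBasis (T := 2 * π)).repr.symm ⟨cf N, cf_mem hN⟩

lemma omL_coeff (N : ℕ) (hN : 0 < N) (n : ℤ) :
    fourierCoeff (omL N hN : AddCircle (2 * π) → ℂ) n = cf N n := by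
  rw [← fourierBasis_repr]
  unfold omL
  simp

/-- a measurable version on the line, complex valued -/
noncomputable def omC (N : ℕ) (hN : 0 < N) (θ : ℝ) : ℂ := (omL N hN) ((θ : ℝ) : AddCircle (2 * π))

lemma omC_meas (N : ℕ) (hN : 0 < N) : Measurable (omC N hN) :=
  (Lp.stronglyMeasurable (omL N hN)).measurable.comp AddCircle.measurable_mk'

lemma omC_memLp (N : ℕ) (hN : 0 < N) : MemLp (omC N hN) 2 (volume.restrict (Ioc (-π) π)) := by
  have h1 : MemLp (omL N hN : AddCircle (2 * π) → ℂ) 2 volume :=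
    (Lp.memLp (omL N hN)).of_haarAddCircle
  have h2 := AddCircle.measurePreserving_mk (2 * π) (-π)
  have h3 := h1.comp_measurePreserving h2
  rw [show -π + 2 * π = π by ring] at h3
  exact h3

lemma omC_int (N : ℕ) (hN : 0 < N) (n : ℤ) :
    ∫ θ in Ioc (-π) π, Complex.exp (-(n * θ * Complex.I)) * omC N hN θ
      = 2 * π * cf N n := by
  rw [← omL_coeff N hN n, fourierCoeff_eq_intervalIntegral _ n (-π),
    show -π + 2 * π = π by ring, intervalIntegral.integral_of_le (by linarith [Real.pi_pos])]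
  have hp : (2 * (π : ℂ)) ≠ 0 := by
    have := Real.pi_ne_zero
    simp [this]
  have e : ((1 / (2 * π) : ℝ) : ℂ) = 1 / (2 * (π : ℂ)) := by push_cast; rfl
  rw [Complex.real_smul, e, ← mul_assoc, mul_one_div_cancel hp, one_mul]
  refine setIntegral_congr_fun measurableSet_Ioc fun θ _ => ?_
  simp only [omC, smul_eq_mul]
  congr 1
  rw [fourier_coe_apply]
  congr 1
  have h2 : (2 * (π : ℂ)) ≠ 0 := hp
  push_cast
  field_simp

end Pool.Agent.R247.BM
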