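import Pool.Agent.R247.BM.A

/-! The real angular function and integration of products in polar coordinates. -/

set_option autoImplicit false

open MeasureTheory Set Filter Topology
open scoped ENNReal Real

namespace Pool.Agent.R247.BM

local instance fact2pi' : Fact (0 < 2 * π) := ⟨by positivity⟩

/-- the angular function -/
noncomputable def om (N : ℕ) (hN : 0 < N) (θ : ℝ) : ℝ := (omC N hN θ).re

lemma om_meas (N : ℕ) (hN : 0 < N) : Measurable (om N hN) :=
  Complex.measurable_re.comp (omC_meas N hN)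

lemma om_memLp (N : ℕ) (hN : 0 < N) : MemLp (om N hN) 2 (volume.restrict (Ioo (-π) π)) := by
  have h := (omC_memLp N hN).re
  rw [← restrict_Ioo_eq_restrict_Ioc] at h
  exact h

lemma om_int_exp (N : ℕ) (hN : 0 < N) (n : ℤ) :
    ∫ θ in Ioo (-π) π, (om N hN θ : ℂ) * Complex.exp (n * θ * Complex.I)
      = π * (cf N (-n) + (starRingEnd ℂ) (cf N n)) := by
  have hI : ∀ m : ℤ, IntegrableOn (fun θ : ℝ => Complex.exp (-(m * θ * Complex.I)) * omC N hN θ)
      (Ioc (-π) π) := by
    intro m
    have h1 : Integrable (omC N hN) (volume.restrict (Ioc (-π) π)) :=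
      (omC_memLp N hN).integrable (by norm_num)
    refine h1.bdd_mul (c := 1) (by fun_prop) (ae_of_all _ fun θ => ?_)
    rw [Complex.norm_exp]
    simp
  have h1 := omC_int N hN (-n)
  have h2 := omC_int N hN n
  have h3 : ∫ θ in Ioc (-π) π, (starRingEnd ℂ) (Complex.exp (-(n * θ * Complex.I)) * omC N hN θ)
      = (starRingEnd ℂ) (2 * π * cf N n) := by
    rw [← h2]
    exact integral_conj
  have h4 : ∀ θ : ℝ, (om N hN θ : ℂ) * Complex.exp (n * θ * Complex.I)
      = (1 / 2) * (Complex.exp (-(((-n : ℤ) : ℂ) * θ * Complex.I)) * omC N hN θ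
        + (starRingEnd ℂ) (Complex.exp (-(n * θ * Complex.I)) * omC N hN θ)) := by
    intro θ
    have e1 : (starRingEnd ℂ) (Complex.exp (-(n * θ * Complex.I)))
        = Complex.exp (n * θ * Complex.I) := by
      rw [← Complex.exp_conj]
      congr 1
      simp
    rw [map_mul, e1]
    have e2 : (om N hN θ : ℂ) = (1 / 2) * (omC N hN θ + (starRingEnd ℂ) (omC N hN θ)) := by
      rw [Complex.add_conj]
      unfold om
      push_cast
      ring
    have e3 : Complex.exp (-(((-n : ℤ) : ℂ) * θ * Complex.I)) = Complex.exp (n * θ * Complex.I) := by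
      congr 1
      push_cast
      ring
    rw [e2, e3]
    ring
  rw [← integral_Ioc_eq_integral_Ioo]
  simp_rw [h4]
  rw [integral_const_mul, integral_add (hI (-n)) ?_, h1, h3]
  · simp only [map_mul, Complex.conj_ofReal]
    have : (starRingEnd ℂ) (2 : ℂ) = 2 := Complex.conj_ofNat 2
    rw [this]
    ring
  · exact (LinearIsometryEquiv.integrable_comp_iff (Complex.conjLIE)).2 (hI n)

lemma om_mean (N : ℕ) (hN : 0 < N) : ∫ θ in Ioo (-π) π, om N hN θ = 0 := by
  have h := om_int_exp N hN 0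
  rw [cf_of_nonpos hN (by simp), cf_of_nonpos hN (le_refl 0)] at h
  simp only [Int.cast_zero, zero_mul, Complex.exp_zero, mul_one, map_zero, add_zero,
    mul_zero] at h
  rw [integral_complex_ofReal] at h
  exact_mod_cast h

lemma om_fr (N : ℕ) (hN : 0 < N) (j : ℕ) :
    ∫ θ in Ioo (-π) π, (om N hN θ : ℂ) * Complex.exp ((fr N j : ℕ) * θ * Complex.I)
      = ((π / (j + 1) : ℝ) : ℂ) := by
  have h := om_int_exp N hN (fr N j)
  rw [cf_of_nonpos hN (by omega), cf_fr hN] at h
  simp only [Int.cast_natCast] at h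
  rw [h]
  simp only [map_div₀, map_one, map_add, Complex.conj_natCast, zero_add]
  push_cast
  ring

/-! ### polar coordinates -/

lemma arg_polar {p : ℝ × ℝ} (hp : p ∈ polarCoord.target) :
    Complex.arg (Complex.polarCoord.symm p) = p.2 := by
  rw [Complex.polarCoord_symm_apply]
  have h := hp
  rw [polarCoord_target, mem_prod] at h
  have := Complex.arg_mul_cos_add_sin_mul_I (r := p.1) (θ := p.2) h.1
    ⟨h.2.1, h.2.2.le⟩
  push_cast
  exact this

lemma norm_polar {p : ℝ × ℝ} (hp : p ∈ polarCoord.target) :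
    ‖Complex.polarCoord.symm p‖ = p.1 := by
  rw [Complex.norm_polarCoord_symm]
  rw [polarCoord_target, mem_prod] at hp
  exact abs_of_pos hp.1

lemma integral_polar_mul (g h : ℝ → ℂ) :
    ∫ z : ℂ, g ‖z‖ * h (Complex.arg z)
      = (∫ r in Ioi (0 : ℝ), (r : ℂ) * g r) * ∫ θ in Ioo (-π) π, h θ := by
  rw [← Complex.integral_comp_polarCoord_symm]
  rw [← setIntegral_prod_mul]
  rw [polarCoord_target]
  refine setIntegral_congr_fun (measurableSet_Ioi.prod measurableSet_Ioo) fun p hp => ?_
  rw [norm_polar (by rw [polarCoord_target]; exact hp), arg_polar (by rw [polarCoord_target]; exact hp),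
    Complex.real_smul]
  ring

lemma lintegral_polar_mul (g h : ℝ → ℝ≥0∞) (hg : Measurable g) (hh : Measurable h) :
    ∫⁻ z : ℂ, g ‖z‖ * h (Complex.arg z)
      = (∫⁻ r in Ioi (0 : ℝ), ENNReal.ofReal r * g r) * ∫⁻ θ in Ioo (-π) π, h θ := by
  rw [← Complex.lintegral_comp_polarCoord_symm]
  rw [← lintegral_prod_mul (by fun_prop) (by fun_prop), Measure.prod_restrict]
  rw [polarCoord_target]
  refine setLIntegral_congr_fun (measurableSet_Ioi.prod measurableSet_Ioo) fun p hp => ?_
  rw [norm_polar (by rw [polarCoord_target]; exact hp), arg_polar (by rw [polarCoord_target]; exact hp),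
    smul_eq_mul]
  ring

lemma integrable_polar_mul (g h : ℝ → ℝ) (hg : Measurable g) (hh : Measurable h)
    (hg' : IntegrableOn (fun r => r * g r) (Ioi 0)) (hh' : IntegrableOn h (Ioo (-π) π)) :
    Integrable (fun z : ℂ => g ‖z‖ * h (Complex.arg z)) := by
  refine ⟨by
    have h1 : Measurable fun z : ℂ => g ‖z‖ := hg.comp measurable_norm
    have h2 : Measurable fun z : ℂ => h (Complex.arg z) := hh.comp Complex.measurable_arg
    exact (h1.mul h2).aestronglyMeasurable, ?_⟩
  unfold HasFiniteIntegral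
  have e : ∫⁻ z : ℂ, ‖g ‖z‖ * h (Complex.arg z)‖ₑ
      = ∫⁻ z : ℂ, (fun r => ‖g r‖ₑ) ‖z‖ * (fun θ => ‖h θ‖ₑ) (Complex.arg z) :=
    lintegral_congr fun z => by rw [enorm_mul]
  rw [e, lintegral_polar_mul (fun r => ‖g r‖ₑ) (fun θ => ‖h θ‖ₑ) (by fun_prop) (by fun_prop)]
  refine ENNReal.mul_lt_top ?_ hh'.2
  refine lt_of_le_of_lt (le_of_eq ?_) hg'.2
  refine setLIntegral_congr_fun measurableSet_Ioi fun r hr => ?_
  simp only
  rw [enorm_mul, Real.enorm_eq_ofReal (le_of_lt hr)]

end Pool.Agent.R247.BM
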