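import Pool.Agent.R247.BM.B

/-! The kernel and existence of principal values for test functions. -/

set_option autoImplicit false

open MeasureTheory Set Filter Topology
open scoped ENNReal Real

namespace Pool.Agent.R247.BM

/-- the kernel -/
noncomputable def ker (N : ℕ) (hN : 0 < N) (z : ℂ) : ℝ := (‖z‖ ^ 2)⁻¹ * om N hN (Complex.arg z)

lemma ker_meas (N : ℕ) (hN : 0 < N) : Measurable (ker N hN) := by
  unfold ker
  exact ((measurable_norm.pow_const 2).inv).mul ((om_meas N hN).comp Complex.measurable_arg)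

lemma ker_hom (N : ℕ) (hN : 0 < N) (z : ℂ) (t : ℝ) (ht : 0 < t) :
    ker N hN ((t : ℂ) * z) = t ^ (-(2 : ℤ)) * ker N hN z := by
  unfold ker
  rw [Complex.arg_real_mul _ ht, norm_mul, Complex.norm_real, Real.norm_of_nonneg ht.le, mul_pow,
    mul_inv, zpow_neg]
  norm_cast
  ring

lemma om_int (N : ℕ) (hN : 0 < N) : IntegrableOn (om N hN) (Ioo (-π) π) :=
  (om_memLp N hN).integrable (by norm_num)

lemma om_sq_int (N : ℕ) (hN : 0 < N) : IntegrableOn (fun θ => om N hN θ ^ 2) (Ioo (-π) π) :=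
  (om_memLp N hN).integrable_sq

/-- integrability of radial multiples -/
lemma ker_mul_int (N : ℕ) (hN : 0 < N) (g : ℝ → ℝ) (hg : Measurable g)
    (hg' : IntegrableOn (fun r => r⁻¹ * g r) (Ioi 0)) :
    Integrable (fun z : ℂ => g ‖z‖ * ker N hN z) := by
  have h := integrable_polar_mul (fun r => g r * (r ^ 2)⁻¹) (om N hN) (by fun_prop) (om_meas N hN)
    (hg'.congr_fun (fun r hr => by
      have : r ≠ 0 := ne_of_gt hr
      simp only
      field_simp) measurableSet_Ioi) (om_int N hN)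
  refine h.congr (ae_of_all _ fun z => ?_)
  simp only [ker]
  ring

lemma integral_polar_mul_real (g h : ℝ → ℝ) :
    ∫ z : ℂ, g ‖z‖ * h (Complex.arg z)
      = (∫ r in Ioi (0 : ℝ), r * g r) * ∫ θ in Ioo (-π) π, h θ := by
  have h := integral_polar_mul (fun r => (g r : ℂ)) (fun θ => (h θ : ℂ))
  have e1 : ∀ r : ℝ, (r : ℂ) * (g r : ℂ) = ((r * g r : ℝ) : ℂ) := fun r => by push_cast; rfl
  simp_rw [e1, ← Complex.ofReal_mul] at h
  rw [integral_complex_ofReal, integral_complex_ofReal, integral_complex_ofReal] at h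
  exact_mod_cast h

lemma ker_mul_zero (N : ℕ) (hN : 0 < N) (g : ℝ → ℝ) :
    ∫ z : ℂ, g ‖z‖ * ker N hN z = 0 := by
  have h := integral_polar_mul_real (fun r => g r * (r ^ 2)⁻¹) (om N hN)
  rw [om_mean, mul_zero] at h
  rw [← h]
  refine integral_congr_ae (ae_of_all _ fun z => ?_)
  simp only [ker]
  ring

lemma rinv_ind_int {a b : ℝ} (ha : 0 < a) :
    IntegrableOn (fun r : ℝ => r⁻¹ * (Icc a b).indicator (fun _ => (1 : ℝ)) r) (Ioi 0) := by
  have h : IntegrableOn (fun r : ℝ => r⁻¹) (Icc a b) := by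
    refine ContinuousOn.integrableOn_Icc ?_
    exact continuousOn_inv₀.mono fun x hx => ne_of_gt (lt_of_lt_of_le ha hx.1)
  have h2 : Integrable ((Icc a b).indicator (fun r : ℝ => r⁻¹)) :=
    h.integrable_indicator measurableSet_Icc
  refine (h2.integrableOn (s := Ioi 0)).congr_fun (fun r _ => ?_) measurableSet_Ioi
  by_cases hr : r ∈ Icc a b <;> simp [hr]

lemma ind_norm (s : Set ℝ) (z : ℂ) :
    s.indicator (fun _ => (1 : ℝ)) ‖z‖ = {z : ℂ | ‖z‖ ∈ s}.indicator (fun _ => (1 : ℝ)) z := by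
  by_cases h : ‖z‖ ∈ s <;> simp [h, indicator]

lemma ker_intOn (N : ℕ) (hN : 0 < N) {a b : ℝ} (ha : 0 < a) :
    IntegrableOn (ker N hN) {z : ℂ | ‖z‖ ∈ Icc a b} := by
  have h := ker_mul_int N hN ((Icc a b).indicator (fun _ => (1 : ℝ)))
    (measurable_const.indicator measurableSet_Icc) (rinv_ind_int ha)
  have hm : MeasurableSet {z : ℂ | ‖z‖ ∈ Icc a b} := measurable_norm measurableSet_Icc
  rw [← integrable_indicator_iff hm]
  refine h.congr (ae_of_all _ fun z => ?_)
  simp only
  rw [ind_norm]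
  by_cases hz : z ∈ {z : ℂ | ‖z‖ ∈ Icc a b}
  · rw [indicator_of_mem hz, indicator_of_mem hz, one_mul]
  · rw [indicator_of_notMem hz, indicator_of_notMem hz, zero_mul]

lemma ker_int_zero (N : ℕ) (hN : 0 < N) (s : Set ℝ) (hs : MeasurableSet s) :
    ∫ z in {z : ℂ | ‖z‖ ∈ s}, ker N hN z = 0 := by
  have hm : MeasurableSet {z : ℂ | ‖z‖ ∈ s} := measurable_norm hs
  rw [← integral_indicator hm, ← ker_mul_zero N hN (s.indicator (fun _ => (1 : ℝ)))]
  refine integral_congr_ae (ae_of_all _ fun z => ?_)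
  simp only
  rw [ind_norm]
  by_cases hz : z ∈ {z : ℂ | ‖z‖ ∈ s}
  · rw [indicator_of_mem hz, indicator_of_mem hz, one_mul]
  · rw [indicator_of_notMem hz, indicator_of_notMem hz, zero_mul]

lemma ker_sq_intOn (N : ℕ) (hN : 0 < N) :
    IntegrableOn (fun z => ker N hN z ^ 2) {z : ℂ | ‖z‖ ∈ Icc (1 : ℝ) 2} := by
  have h0 : IntegrableOn (fun r : ℝ => r * ((Icc (1 : ℝ) 2).indicator (fun _ => (1 : ℝ)) r
      * ((r ^ 2)⁻¹) ^ 2)) (Ioi 0) := by
    have h : IntegrableOn (fun r : ℝ => r * ((r ^ 2)⁻¹) ^ 2) (Icc (1 : ℝ) 2) := by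
      refine ContinuousOn.integrableOn_Icc ?_
      refine continuousOn_id.mul (ContinuousOn.pow (ContinuousOn.inv₀ (by fun_prop) ?_) 2)
      intro x hx
      have : (0 : ℝ) < x := lt_of_lt_of_le one_pos hx.1
      positivity
    have h2 : Integrable ((Icc (1 : ℝ) 2).indicator (fun r : ℝ => r * ((r ^ 2)⁻¹) ^ 2)) :=
      h.integrable_indicator measurableSet_Icc
    refine (h2.integrableOn (s := Ioi 0)).congr_fun (fun r _ => ?_) measurableSet_Ioi
    by_cases hr : r ∈ Icc (1 : ℝ) 2 <;> simp [hr]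
  have h := integrable_polar_mul (fun r => (Icc (1 : ℝ) 2).indicator (fun _ => (1 : ℝ)) r
      * ((r ^ 2)⁻¹) ^ 2) (fun θ => om N hN θ ^ 2)
    ((measurable_const.indicator measurableSet_Icc).mul (by fun_prop)) ((om_meas N hN).pow_const 2)
    h0 (om_sq_int N hN)
  have hm : MeasurableSet {z : ℂ | ‖z‖ ∈ Icc (1 : ℝ) 2} := measurable_norm measurableSet_Icc
  rw [← integrable_indicator_iff hm]
  refine h.congr (ae_of_all _ fun z => ?_)
  simp only
  rw [ind_norm]
  by_cases hz : z ∈ {z : ℂ | ‖z‖ ∈ Icc (1 : ℝ) 2}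
  · rw [indicator_of_mem hz, indicator_of_mem hz]
    unfold ker
    ring
  · rw [indicator_of_notMem hz, indicator_of_notMem hz]
    ring

/-- the `L log L` condition -/
lemma ker_log_intOn (N : ℕ) (hN : 0 < N) :
    IntegrableOn (fun z => |ker N hN z| * max 0 (Real.log |ker N hN z|))
      {z : ℂ | ‖z‖ ∈ Icc (1 : ℝ) 2} := by
  refine (ker_sq_intOn N hN).mono' ?_ (ae_of_all _ fun z => ?_)
  · have h1 : Measurable fun z => |ker N hN z| := (ker_meas N hN).abs
    exact (h1.mul (measurable_const.max (Real.measurable_log.comp h1))).aestronglyMeasurable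
  · have h0 := abs_nonneg (ker N hN z)
    rw [Real.norm_of_nonneg (mul_nonneg h0 (le_max_left _ _)), ← sq_abs, sq]
    refine mul_le_mul_of_nonneg_left (max_le h0 ?_) h0
    exact (Real.log_le_self h0)

/-- existence of principal values for continuously differentiable functions of compact support -/
lemma pv_exists (N : ℕ) (hN : 0 < N) (f : ℂ → ℝ) (hf : ContDiff ℝ 1 f) (hs : HasCompactSupport f)
    (x : ℂ) : ∃ L : ℝ, Tendsto (fun ε : ℝ => ∫ y in {y : ℂ | ε < ‖y‖}, ker N hN y * f (x - y))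
      (𝓝[>] 0) (𝓝 L) := by
  obtain ⟨K, hK⟩ := hf.lipschitzWith_of_hasCompactSupport hs one_ne_zero
  obtain ⟨M, hM⟩ := hs.exists_bound_of_continuous hf.continuous
  obtain ⟨R, hR⟩ := hs.isBounded.subset_closedBall (0 : ℂ)
  have hM0 : 0 ≤ M := (norm_nonneg _).trans (hM 0)
  -- the regularised integrand
  set G : ℂ → ℝ := fun y => ker N hN y *
    (f (x - y) - (Iic (1 : ℝ)).indicator (fun _ => (1 : ℝ)) ‖y‖ * f x) with hG
  have hfm : Measurable f := hf.continuous.measurable
  have hGm : Measurable G := by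
    refine (ker_meas N hN).mul ((hfm.comp (measurable_const.sub measurable_id)).sub ?_)
    exact ((measurable_const.indicator measurableSet_Iic).comp measurable_norm).mul_const _
  -- majorant
  have hmaj1 : Integrable (fun z : ℂ => (fun r : ℝ => (Ioc (0 : ℝ) 1).indicator
      (fun r => K * r) r) ‖z‖ * ker N hN z) := by
    refine ker_mul_int N hN _ ((by fun_prop : Measurable fun r : ℝ => (K : ℝ) * r).indicator
      measurableSet_Ioc) ?_
    have h : IntegrableOn (fun _ : ℝ => (K : ℝ)) (Ioc (0 : ℝ) 1) := by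
      exact integrableOn_const (by simp) (by simp)
    have h2 : Integrable ((Ioc (0 : ℝ) 1).indicator (fun _ : ℝ => (K : ℝ))) :=
      h.integrable_indicator measurableSet_Ioc
    refine (h2.integrableOn (s := Ioi 0)).congr_fun (fun r hr => ?_) measurableSet_Ioi
    have hr0 : r ≠ 0 := ne_of_gt hr
    by_cases hr : r ∈ Ioc (0 : ℝ) 1
    · simp only [hr, indicator_of_mem]
      field_simp
    · simp [hr]
  have hmaj2 : Integrable (fun z : ℂ => (fun r : ℝ => M * (Icc (1 : ℝ) (‖x‖ + R)).indicator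
      (fun _ => (1 : ℝ)) r) ‖z‖ * ker N hN z) := by
    refine ker_mul_int N hN _ ((measurable_const.indicator measurableSet_Icc).const_mul M) ?_
    have h : IntegrableOn (fun r : ℝ => M * (r⁻¹ * (Icc (1 : ℝ) (‖x‖ + R)).indicator
        (fun _ => (1 : ℝ)) r)) (Ioi 0) := (rinv_ind_int (a := 1) (b := ‖x‖ + R) one_pos).const_mul M
    refine h.congr_fun (fun r _ => ?_) measurableSet_Ioi
    ring
  have hbd : ∀ y : ℂ, ‖G y‖ ≤ ‖(fun r : ℝ => (Ioc (0 : ℝ) 1).indicator
      (fun r => K * r) r) ‖y‖ * ker N hN y‖ + ‖(fun r : ℝ => M * (Icc (1 : ℝ) (‖x‖ + R)).indicator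
      (fun _ => (1 : ℝ)) r) ‖y‖ * ker N hN y‖ := by
    intro y
    rcases eq_or_ne y 0 with rfl | hy
    · have : ker N hN 0 = 0 := by simp [ker]
      simp [hG, this]
    have hy0 : 0 < ‖y‖ := norm_pos_iff.2 hy
    by_cases h1 : ‖y‖ ≤ 1
    · have e1 : (Iic (1 : ℝ)).indicator (fun _ => (1 : ℝ)) ‖y‖ = 1 := by simp [h1]
      have e2 : (Ioc (0 : ℝ) 1).indicator (fun r => (K : ℝ) * r) ‖y‖ = K * ‖y‖ := by simp [h1, hy0]
      refine le_trans ?_ (le_add_of_nonneg_right (norm_nonneg _))
      simp only [hG, e1, e2, one_mul]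
      rw [norm_mul, norm_mul, mul_comm]
      refine mul_le_mul_of_nonneg_right ?_ (norm_nonneg _)
      have := hK.dist_le_mul (x - y) x
      rw [dist_eq_norm, dist_eq_norm] at this
      have e3 : ‖x - y - x‖ = ‖y‖ := by rw [sub_sub_cancel_left, norm_neg]
      rw [e3] at this
      refine this.trans (le_abs_self _)
    · have e1 : (Iic (1 : ℝ)).indicator (fun _ => (1 : ℝ)) ‖y‖ = 0 := by simp [not_le.1 h1]
      refine le_trans ?_ (le_add_of_nonneg_left (norm_nonneg _))
      simp only [hG, e1, zero_mul, sub_zero]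
      rw [norm_mul, norm_mul, mul_comm]
      refine mul_le_mul_of_nonneg_right ?_ (norm_nonneg _)
      by_cases h2 : ‖y‖ ≤ ‖x‖ + R
      · have e2 : (Icc (1 : ℝ) (‖x‖ + R)).indicator (fun _ => (1 : ℝ)) ‖y‖ = 1 := by
          simp [h2, (not_le.1 h1).le]
        rw [e2, mul_one]
        exact (hM _).trans (le_abs_self _)
      · have h3 : f (x - y) = 0 := by
          apply image_eq_zero_of_notMem_tsupport
          intro h4
          have h5 := hR h4
          rw [mem_closedBall_zero_iff] at h5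
          have h6 : ‖y‖ ≤ ‖x‖ + ‖x - y‖ := by
            calc ‖y‖ = ‖x - (x - y)‖ := by rw [sub_sub_cancel]
              _ ≤ _ := norm_sub_le _ _
          linarith
        rw [h3, norm_zero]
        positivity
  have hGi : Integrable G := (hmaj1.norm.add hmaj2.norm).mono' hGm.aestronglyMeasurable
    (ae_of_all _ hbd)
  refine ⟨∫ y, G y, ?_⟩
  -- for small truncations the integral equals that of the regularised integrand
  have hev : ∀ᶠ ε : ℝ in 𝓝[>] 0, ∫ y in {y : ℂ | ε < ‖y‖}, G y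
      = ∫ y in {y : ℂ | ε < ‖y‖}, ker N hN y * f (x - y) := by
    filter_upwards [Ioo_mem_nhdsGT (zero_lt_one : (0 : ℝ) < 1)] with ε hε
    have hmS : MeasurableSet {y : ℂ | ε < ‖y‖} := measurableSet_lt measurable_const measurable_norm
    have i1 : IntegrableOn (fun y => (Iic (1 : ℝ)).indicator (fun _ => (1 : ℝ)) ‖y‖ * f x
        * ker N hN y) {y : ℂ | ε < ‖y‖} := by
      have h := ker_intOn N hN (a := ε) (b := 1) hε.1
      have hm : MeasurableSet {z : ℂ | ‖z‖ ∈ Icc ε 1} := measurable_norm measurableSet_Icc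
      rw [← integrable_indicator_iff hm] at h
      rw [← integrable_indicator_iff hmS]
      refine ((h.const_mul (f x)).indicator hmS).congr (ae_of_all _ fun y => ?_)
      by_cases h1 : y ∈ {y : ℂ | ε < ‖y‖}
      · rw [indicator_of_mem h1, indicator_of_mem h1]
        by_cases h2 : ‖y‖ ≤ 1
        · have : y ∈ {z : ℂ | ‖z‖ ∈ Icc ε 1} := ⟨le_of_lt h1, h2⟩
          rw [indicator_of_mem this]
          simp [h2]
        · have : y ∉ {z : ℂ | ‖z‖ ∈ Icc ε 1} := fun h => h2 h.2
          rw [indicator_of_notMem this]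
          simp [not_le.1 h2]
      · rw [indicator_of_notMem h1, indicator_of_notMem h1]
    have i2 : ∫ y in {y : ℂ | ε < ‖y‖}, (Iic (1 : ℝ)).indicator (fun _ => (1 : ℝ)) ‖y‖ * f x
        * ker N hN y = 0 := by
      have h := ker_mul_zero N hN (fun r => (Ioc ε 1).indicator (fun _ => (1 : ℝ)) r * f x)
      rw [← integral_indicator hmS, ← h]
      refine integral_congr_ae (ae_of_all _ fun y => ?_)
      simp only
      by_cases h1 : ε < ‖y‖
      · have h1' : y ∈ {y : ℂ | ε < ‖y‖} := h1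
        rw [indicator_of_mem h1']
        by_cases h2 : ‖y‖ ≤ 1 <;> simp [h1, h2]
      · have h1' : y ∉ {y : ℂ | ε < ‖y‖} := h1
        rw [indicator_of_notMem h1']
        simp [h1]
    have e : ∀ y : ℂ, ker N hN y * f (x - y) = G y + (Iic (1 : ℝ)).indicator (fun _ => (1 : ℝ)) ‖y‖
        * f x * ker N hN y := fun y => by simp only [hG]; ring
    simp_rw [e]
    rw [integral_add hGi.integrableOn i1, i2, add_zero]
  refine Tendsto.congr' hev ?_
  -- dominated convergence
  have hconv : Tendsto (fun ε : ℝ => ∫ y : ℂ, {y : ℂ | ε < ‖y‖}.indicator G y) (𝓝[>] 0)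
      (𝓝 (∫ y, G y)) := by
    refine tendsto_integral_filter_of_dominated_convergence (fun y => ‖G y‖) ?_ ?_ hGi.norm ?_
    · exact Eventually.of_forall fun ε => (hGm.indicator
        (measurableSet_lt measurable_const measurable_norm)).aestronglyMeasurable
    · exact Eventually.of_forall fun ε => ae_of_all _ fun y => norm_indicator_le_norm_self _ _
    · refine ae_of_all _ fun y => ?_
      rcases eq_or_ne y 0 with rfl | hy
      · have h0 : G 0 = 0 := by simp [hG, ker]
        have : (fun ε : ℝ => {y : ℂ | ε < ‖y‖}.indicator G 0) = fun _ => 0 := by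
          funext ε
          by_cases h : (0 : ℂ) ∈ {y : ℂ | ε < ‖y‖}
          · rw [indicator_of_mem h, h0]
          · rw [indicator_of_notMem h]
        rw [this, h0]
        exact tendsto_const_nhds
      · refine Tendsto.congr' ?_ tendsto_const_nhds
        filter_upwards [Ioo_mem_nhdsGT (norm_pos_iff.2 hy)] with ε hε
        exact (indicator_of_mem (show y ∈ {y : ℂ | ε < ‖y‖} from hε.2) G).symm
  refine hconv.congr fun ε => ?_
  rw [integral_indicator (measurableSet_lt measurable_const measurable_norm)]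

end Pool.Agent.R247.BM
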