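import Pool.Agent.R247.BM.C

/-! The test functions: radial profile, angular frequency `2 m`, and their pairing with balls. -/

set_option autoImplicit false

open MeasureTheory Set Filter Topology Metric
open scoped ENNReal Real

namespace Pool.Agent.R247.BM

/-- the bump -/
noncomputable def bump : ContDiffBump (4 : ℝ) := ⟨1 / 2, 1, by norm_num, by norm_num⟩

noncomputable def chi (t : ℝ) : ℝ := bump t

lemma chi_smooth : ContDiff ℝ 1 chi := bump.contDiff

lemma chi_nonneg (t : ℝ) : 0 ≤ chi t := bump.nonneg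

lemma chi_le (t : ℝ) : chi t ≤ 1 := bump.le_one

lemma chi_zero {t : ℝ} (h : t ∉ Ioo (3 : ℝ) 5) : chi t = 0 := by
  apply bump.zero_of_le_dist
  rw [Real.dist_eq]
  have : bump.rOut = 1 := rfl
  rw [this]
  by_contra hc
  rw [not_le, abs_lt] at hc
  exact h ⟨by linarith, by linarith⟩

lemma chi_cont : Continuous chi := chi_smooth.continuous

lemma chi_int_pos : 0 < ∫ t in Ioi (0 : ℝ), chi t := by
  have h : ∫ t in Ioi (0 : ℝ), chi t = ∫ t, chi t := by
    refine setIntegral_eq_integral_of_forall_compl_eq_zero fun t ht => chi_zero fun h => ht ?_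
    exact lt_trans (by norm_num) h.1
  rw [h]
  exact bump.integral_pos

/-- the functions `χ(|w|/m) (w/|w|)^(2m)` -/
noncomputable def Phi (m : ℕ) (w : ℂ) : ℂ := (chi (‖w‖ / m) : ℂ) * (w / ‖w‖) ^ (2 * m)

lemma Phi_norm (m : ℕ) (w : ℂ) : ‖Phi m w‖ ≤ chi (‖w‖ / m) := by
  unfold Phi
  rw [norm_mul, norm_pow, norm_div, Complex.norm_real, Complex.norm_real,
    Real.norm_of_nonneg (chi_nonneg _), norm_norm]
  refine mul_le_of_le_one_right (chi_nonneg _) (pow_le_one₀ (by positivity) (div_self_le_one _))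

lemma Phi_norm_le (m : ℕ) (w : ℂ) : ‖Phi m w‖ ≤ 1 := (Phi_norm m w).trans (chi_le _)

lemma Phi_zero {m : ℕ} (hm : 0 < m) {w : ℂ} (h : ‖w‖ ≤ 3 * m ∨ 5 * m ≤ ‖w‖) : Phi m w = 0 := by
  have hm' : (0 : ℝ) < m := by exact_mod_cast hm
  have : chi (‖w‖ / m) = 0 := by
    apply chi_zero
    rintro ⟨h1, h2⟩
    rw [lt_div_iff₀ hm'] at h1
    rw [div_lt_iff₀ hm'] at h2
    rcases h with h | h <;> linarith
  unfold Phi
  rw [this]
  simp

lemma Phi_smooth {m : ℕ} (hm : 0 < m) : ContDiff ℝ 1 (Phi m) := by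
  rw [contDiff_iff_contDiffAt]
  intro w
  rcases eq_or_ne w 0 with rfl | hw
  · refine (contDiffAt_const (c := (0 : ℂ))).congr_of_eventuallyEq ?_
    have hm' : (0 : ℝ) < 3 * m := by positivity
    filter_upwards [ball_mem_nhds (0 : ℂ) hm'] with z hz
    exact Phi_zero hm (Or.inl (mem_ball_zero_iff.1 hz).le)
  · have h1 : ContDiffAt ℝ 1 (fun z : ℂ => ‖z‖) w := contDiffAt_norm ℝ hw
    have h2 : ContDiffAt ℝ 1 (fun z : ℂ => chi (‖z‖ / m)) w :=
      chi_smooth.contDiffAt.comp w (h1.div_const _)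
    have h3 : ContDiffAt ℝ 1 (fun z : ℂ => ((chi (‖z‖ / m) : ℝ) : ℂ)) w :=
      Complex.ofRealCLM.contDiff.contDiffAt.comp w h2
    have h4 : ContDiffAt ℝ 1 (fun z : ℂ => ((‖z‖ : ℝ) : ℂ)) w :=
      Complex.ofRealCLM.contDiff.contDiffAt.comp w h1
    have h5 : ContDiffAt ℝ 1 (fun z : ℂ => z / ((‖z‖ : ℝ) : ℂ)) w := by
      have h6 : ContDiffAt ℝ 1 (fun z : ℂ => ((‖z‖ : ℝ) : ℂ)⁻¹) w := by
        refine h4.inv ?_
        exact_mod_cast (norm_pos_iff.2 hw).ne'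
      simp only [div_eq_mul_inv]
      exact contDiffAt_id.mul h6
    exact h3.mul (h5.pow _)

lemma Phi_cont {m : ℕ} (hm : 0 < m) : Continuous (Phi m) := (Phi_smooth hm).continuous

lemma Phi_rot (m : ℕ) {c : ℂ} (hc : ‖c‖ = 1) (w : ℂ) : Phi m (c * w) = c ^ (2 * m) * Phi m w := by
  unfold Phi
  rw [norm_mul, hc, one_mul, mul_div_assoc, mul_pow]
  ring

/-- the pairing with the ball of radius `ρ` -/
noncomputable def FF (ρ : ℝ) (m : ℕ) (u : ℂ) : ℂ := ∫ x in ball (0 : ℂ) ρ, Phi m (x - u)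

lemma setIntegral_ball_rot (ρ : ℝ) {c : ℂ} (hc : ‖c‖ = 1) (g : ℂ → ℂ) :
    ∫ x in ball (0 : ℂ) ρ, g (c * x) = ∫ x in ball (0 : ℂ) ρ, g x := by
  have hmp := (rotation ⟨c, by simpa [Submonoid.unitSphere] using hc⟩).measurePreserving
  have h := hmp.setIntegral_preimage_emb
    (rotation ⟨c, by simpa [Submonoid.unitSphere] using hc⟩).toHomeomorph.measurableEmbedding g
    (ball (0 : ℂ) ρ)
  rw [← h]
  have e : (rotation ⟨c, by simpa [Submonoid.unitSphere] using hc⟩) ⁻¹' ball (0 : ℂ) ρ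
      = ball (0 : ℂ) ρ := by
    ext x
    rw [mem_preimage, mem_ball_zero_iff, mem_ball_zero_iff, LinearIsometryEquiv.norm_map]
  rw [e]
  rfl

lemma FF_rot (ρ : ℝ) (m : ℕ) {c : ℂ} (hc : ‖c‖ = 1) (u : ℂ) :
    FF ρ m (c * u) = c ^ (2 * m) * FF ρ m u := by
  unfold FF
  rw [← setIntegral_ball_rot ρ hc, ← integral_const_mul]
  refine setIntegral_congr_fun measurableSet_ball fun x _ => ?_
  rw [← mul_sub, Phi_rot m hc]

lemma FF_norm (ρ : ℝ) (hρ : 0 ≤ ρ) (m : ℕ) (u : ℂ) : ‖FF ρ m u‖ ≤ π * ρ ^ 2 := by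
  unfold FF
  have h := norm_setIntegral_le_of_norm_le_const (s := ball (0 : ℂ) ρ) (f := fun x => Phi m (x - u))
    (C := 1) (measure_ball_lt_top (μ := volume)) (fun x _ => Phi_norm_le m _)
  refine h.trans (le_of_eq ?_)
  rw [one_mul, measureReal_def, Complex.volume_ball]
  simp [ENNReal.toReal_ofReal hρ]
  ring

lemma FF_zero {ρ : ℝ} (hρ : ρ ≤ 1) {m : ℕ} (hm : 0 < m) {u : ℂ}
    (h : ‖u‖ ≤ 2 * m ∨ 6 * m ≤ ‖u‖) : FF ρ m u = 0 := by
  unfold FF
  have hm' : (1 : ℝ) ≤ m := by exact_mod_cast hm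
  rw [setIntegral_congr_fun measurableSet_ball (g := fun _ => (0 : ℂ))]
  · simp
  intro x hx
  rw [mem_ball_zero_iff] at hx
  simp only
  apply Phi_zero hm
  rcases h with h | h
  · left
    have := norm_sub_le x u
    linarith
  · right
    have : ‖u‖ ≤ ‖x‖ + ‖x - u‖ := by
      calc ‖u‖ = ‖x - (x - u)‖ := by rw [sub_sub_cancel]
        _ ≤ _ := norm_sub_le _ _
    linarith

lemma FF_meas (ρ : ℝ) {m : ℕ} (hm : 0 < m) : StronglyMeasurable (FF ρ m) := by
  have h : StronglyMeasurable (Function.uncurry fun (u x : ℂ) => Phi m (x - u)) := by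
    refine Continuous.stronglyMeasurable ?_
    exact (Phi_cont hm).comp (continuous_snd.sub continuous_fst)
  exact h.integral_prod_right

end Pool.Agent.R247.BM
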