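import Pool.Agent.R247.BM.D

/-! The limit of the pairings as the frequency tends to infinity. -/

set_option autoImplicit false

open MeasureTheory Set Filter Topology Metric
open scoped ENNReal Real

namespace Pool.Agent.R247.BM

/-- the radial pairing -/
noncomputable def dd (ρ : ℝ) (m : ℕ) : ℂ := ∫ r in Ioi (0 : ℝ), ((r⁻¹ : ℝ) : ℂ) * FF ρ m r

/-- its limit -/
noncomputable def BB (ρ t : ℝ) : ℂ :=
  ∫ x in ball (0 : ℂ) ρ, (chi t : ℂ) * Complex.exp (-(2 * x.im / t : ℝ) * Complex.I)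

lemma dd_scale (ρ : ℝ) {m : ℕ} (hm : 0 < m) :
    dd ρ m = ∫ t in Ioi (0 : ℝ), ((t⁻¹ : ℝ) : ℂ) * FF ρ m ((m * t : ℝ) : ℂ) := by
  have hm' : (0 : ℝ) < m := by exact_mod_cast hm
  have h := integral_comp_mul_left_Ioi (fun r : ℝ => ((r⁻¹ : ℝ) : ℂ) * FF ρ m r) 0 hm'
  rw [mul_zero] at h
  unfold dd
  have h2 : ∫ r in Ioi (0 : ℝ), ((r⁻¹ : ℝ) : ℂ) * FF ρ m r
      = (m : ℝ) • ∫ t in Ioi (0 : ℝ), (((m * t)⁻¹ : ℝ) : ℂ) * FF ρ m ((m * t : ℝ) : ℂ) := by
    rw [h, smul_smul, mul_inv_cancel₀ hm'.ne', one_smul]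
  rw [h2, ← integral_smul]
  refine setIntegral_congr_fun measurableSet_Ioi fun t ht => ?_
  have ht' : (t : ℂ) ≠ 0 := by exact_mod_cast (ne_of_gt ht)
  have hmc : (m : ℂ) ≠ 0 := by exact_mod_cast hm'.ne'
  simp only [Complex.real_smul]
  push_cast
  field_simp

lemma pow_tendsto (x : ℂ) {t : ℝ} (ht : 0 < t) :
    Tendsto (fun m : ℕ => Phi m (x - ((m * t : ℝ) : ℂ))) atTop
      (𝓝 ((chi t : ℂ) * Complex.exp (-(2 * x.im / t : ℝ) * Complex.I))) := by
  have htc : (t : ℂ) ≠ 0 := by exact_mod_cast ht.ne'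
  -- the modulus
  have h1 : Tendsto (fun m : ℕ => ‖x - ((m * t : ℝ) : ℂ)‖ / m) atTop (𝓝 t) := by
    have e : ∀ᶠ m : ℕ in atTop, ‖x / m - t‖ = ‖x - ((m * t : ℝ) : ℂ)‖ / m := by
      filter_upwards [eventually_gt_atTop 0] with m hm
      have hm' : (0 : ℝ) < m := by exact_mod_cast hm
      have hmc : (m : ℂ) ≠ 0 := by exact_mod_cast hm'.ne'
      have : x / m - t = (x - ((m * t : ℝ) : ℂ)) / m := by
        push_cast
        field_simp
      rw [this, norm_div, Complex.norm_natCast]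
    refine Tendsto.congr' e ?_
    have h2 : Tendsto (fun m : ℕ => x / (m : ℂ)) atTop (𝓝 0) := by
      have := tendsto_inv_atTop_nhds_zero_nat (𝕜 := ℂ)
      simpa [div_eq_mul_inv] using this.const_mul x
    have h3 := (h2.sub_const (t : ℂ)).norm
    simpa [abs_of_pos ht] using h3
  have h4 : Tendsto (fun m : ℕ => ((chi (‖x - ((m * t : ℝ) : ℂ)‖ / m) : ℝ) : ℂ)) atTop
      (𝓝 (chi t : ℂ)) :=
    (Complex.continuous_ofReal.comp chi_cont).continuousAt.tendsto.comp h1
  unfold Phi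
  refine h4.mul ?_
  -- the phase
  have h5 := Complex.tendsto_one_add_div_pow_exp (-(x / t))
  have h6 := Complex.tendsto_one_add_div_pow_exp (-((starRingEnd ℂ) x / t))
  have h7 := h5.div h6 (Complex.exp_ne_zero _)
  have h8 : Complex.exp (-(x / t)) / Complex.exp (-((starRingEnd ℂ) x / t))
      = Complex.exp (-(2 * x.im / t : ℝ) * Complex.I) := by
    rw [← Complex.exp_sub]
    congr 1
    have hx : x - (starRingEnd ℂ) x = (2 * x.im : ℝ) * Complex.I := Complex.sub_conj x
    have : -(x / t) - -((starRingEnd ℂ) x / t) = -((x - (starRingEnd ℂ) x) / t) := by ring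
    rw [this, hx]
    push_cast
    ring
  rw [h8] at h7
  refine Tendsto.congr' ?_ h7
  obtain ⟨M, hM⟩ := exists_nat_gt (‖x‖ / t)
  filter_upwards [eventually_gt_atTop 0, eventually_ge_atTop M] with m hm hmM
  have hm' : (0 : ℝ) < m := by exact_mod_cast hm
  have hmc : (m : ℂ) ≠ 0 := by exact_mod_cast hm'.ne'
  have hlt : ‖x‖ < m * t := by
    rw [div_lt_iff₀ ht] at hM
    have : (M : ℝ) ≤ m := by exact_mod_cast hmM
    nlinarith
  set w : ℂ := x - ((m * t : ℝ) : ℂ) with hw
  have hw0 : w ≠ 0 := by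
    intro h0
    have : x = ((m * t : ℝ) : ℂ) := sub_eq_zero.1 h0
    rw [this, Complex.norm_real, Real.norm_of_nonneg (by positivity)] at hlt
    exact lt_irrefl _ hlt
  have hwc : (starRingEnd ℂ) w ≠ 0 := (map_ne_zero _).2 hw0
  have hnn : (‖w‖ : ℂ) ≠ 0 := by exact_mod_cast (norm_pos_iff.2 hw0).ne'
  have e1 : (w / ‖w‖) ^ 2 = w / (starRingEnd ℂ) w := by
    rw [div_pow, ← Complex.ofReal_pow, Complex.sq_norm, Complex.normSq_eq_conj_mul_self]
    field_simp
  have hcw : (starRingEnd ℂ) w = (starRingEnd ℂ) x - ((m * t : ℝ) : ℂ) := by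
    rw [hw, map_sub, Complex.conj_ofReal]
  simp only [Pi.div_apply]
  rw [pow_mul, e1, ← div_pow]
  congr 1
  rw [hcw] at hwc ⊢
  have h9 : 1 + -((starRingEnd ℂ) x / t) / (m : ℂ) = -((starRingEnd ℂ) x - ((m * t : ℝ) : ℂ)) / (m * t) := by
    push_cast
    field_simp
    ring
  have h10 : 1 + -(x / t) / (m : ℂ) = -(x - ((m * t : ℝ) : ℂ)) / (m * t) := by
    push_cast
    field_simp
    ring
  rw [h9, h10, div_div_div_cancel_right₀ (by positivity), neg_div_neg_eq, hw]

lemma FF_tendsto (ρ : ℝ) {t : ℝ} (ht : 0 < t) :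
    Tendsto (fun m : ℕ => FF ρ m ((m * t : ℝ) : ℂ)) atTop (𝓝 (BB ρ t)) := by
  unfold FF BB
  refine tendsto_integral_filter_of_dominated_convergence (fun _ => (1 : ℝ)) ?_ ?_ ?_ ?_
  · filter_upwards [eventually_gt_atTop 0] with m hm
    exact ((Phi_cont hm).comp (continuous_id.sub continuous_const)).aestronglyMeasurable
  · exact Eventually.of_forall fun m => ae_of_all _ fun x => Phi_norm_le m _
  · exact integrableOn_const (by exact (measure_ball_lt_top (μ := volume)).ne) (by simp)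
  · exact ae_of_all _ fun x => pow_tendsto x ht

lemma dd_tendsto {ρ : ℝ} (hρ0 : 0 ≤ ρ) (hρ : ρ ≤ 1) :
    Tendsto (fun m : ℕ => dd ρ m) atTop (𝓝 (∫ t in Ioi (0 : ℝ), ((t⁻¹ : ℝ) : ℂ) * BB ρ t)) := by
  have h : ∀ᶠ m : ℕ in atTop, ∫ t in Ioi (0 : ℝ), ((t⁻¹ : ℝ) : ℂ) * FF ρ m ((m * t : ℝ) : ℂ)
      = dd ρ m := by
    filter_upwards [eventually_gt_atTop 0] with m hm
    exact (dd_scale ρ hm).symm
  refine Tendsto.congr' h ?_
  refine tendsto_integral_filter_of_dominated_convergence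
    (fun t => (Ioo (2 : ℝ) 6).indicator (fun _ => π * ρ ^ 2 / 2) t) ?_ ?_ ?_ ?_
  · filter_upwards [eventually_gt_atTop 0] with m hm
    have h1 : Measurable fun t : ℝ => FF ρ m ((m * t : ℝ) : ℂ) :=
      (FF_meas ρ hm).measurable.comp (by fun_prop)
    exact ((by fun_prop : Measurable fun t : ℝ => ((t⁻¹ : ℝ) : ℂ)).mul h1).aestronglyMeasurable
  · filter_upwards [eventually_gt_atTop 0] with m hm
    refine (ae_restrict_iff' measurableSet_Ioi).2 (ae_of_all _ fun t ht => ?_)
    have ht0 : (0 : ℝ) < t := ht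
    have hm' : (0 : ℝ) < m := by exact_mod_cast hm
    have hn : ‖((m * t : ℝ) : ℂ)‖ = m * t := by
      rw [Complex.norm_real, Real.norm_of_nonneg (by positivity)]
    by_cases h2 : t ∈ Ioo (2 : ℝ) 6
    · rw [indicator_of_mem h2, norm_mul, Complex.norm_real, norm_inv, Real.norm_of_nonneg ht0.le]
      have h3 := FF_norm ρ hρ0 m ((m * t : ℝ) : ℂ)
      have h4 : t⁻¹ ≤ 1 / 2 := by
        rw [inv_le_comm₀ ht0 (by norm_num)]
        have := h2.1
        norm_num
        linarith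
      calc t⁻¹ * ‖FF ρ m ((m * t : ℝ) : ℂ)‖ ≤ 1 / 2 * (π * ρ ^ 2) :=
            mul_le_mul h4 h3 (norm_nonneg _) (by norm_num)
        _ = π * ρ ^ 2 / 2 := by ring
    · rw [indicator_of_notMem h2, FF_zero hρ hm, mul_zero, norm_zero]
      rw [hn]
      by_cases h5 : t ≤ 2
      · left; nlinarith
      · right
        have : 6 ≤ t := by
          by_contra h6
          exact h2 ⟨not_le.1 h5, not_le.1 h6⟩
        nlinarith
  · have h1 : IntegrableOn (fun _ : ℝ => π * ρ ^ 2 / 2) (Ioo (2 : ℝ) 6) :=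
      integrableOn_const (by simp) (by simp)
    exact (h1.integrable_indicator measurableSet_Ioo).integrableOn
  · refine (ae_restrict_iff' measurableSet_Ioi).2 (ae_of_all _ fun t ht => ?_)
    exact (FF_tendsto ρ ht).const_mul _

/-! ### positivity -/

/-- real form -/
noncomputable def CC (ρ t : ℝ) : ℝ := ∫ x in ball (0 : ℂ) ρ, Real.cos (2 * x.im / t)

lemma BB_re (ρ t : ℝ) : (BB ρ t).re = chi t * CC ρ t := by
  unfold BB CC
  rw [integral_const_mul, Complex.re_ofReal_mul]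
  congr 1
  have hint : IntegrableOn (fun x : ℂ => Complex.exp (-(2 * x.im / t : ℝ) * Complex.I))
      (ball (0 : ℂ) ρ) := by
    refine Integrable.mono' (g := fun _ => (1 : ℝ)) ?_ ?_ ?_
    · exact integrableOn_const (by exact (measure_ball_lt_top (μ := volume)).ne) (by simp)
    · have : Measurable fun x : ℂ => Complex.exp (-(2 * x.im / t : ℝ) * Complex.I) := by fun_prop
      exact this.aestronglyMeasurable
    · refine ae_of_all _ fun x => ?_
      rw [← Complex.ofReal_neg, Complex.norm_exp_ofReal_mul_I]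
  have h := (integral_re hint).symm
  simp only [RCLike.re_eq_complex_re] at h
  rw [h]
  refine setIntegral_congr_fun measurableSet_ball fun x _ => ?_
  rw [← Complex.ofReal_neg, Complex.exp_ofReal_mul_I_re, Real.cos_neg]

lemma vol_ball_C {ρ : ℝ} (hρ : 0 ≤ ρ) : volume.real (ball (0 : ℂ) ρ) = π * ρ ^ 2 := by
  rw [measureReal_def, Complex.volume_ball]
  simp [ENNReal.toReal_ofReal hρ]
  ring

lemma cos_intOn (ρ t : ℝ) : IntegrableOn (fun x : ℂ => Real.cos (2 * x.im / t)) (ball (0 : ℂ) ρ) := by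
  refine Integrable.mono' (g := fun _ => (1 : ℝ)) ?_ ?_ ?_
  · exact integrableOn_const (by exact (measure_ball_lt_top (μ := volume)).ne) (by simp)
  · have : Measurable fun x : ℂ => Real.cos (2 * x.im / t) := by fun_prop
    exact this.aestronglyMeasurable
  · exact ae_of_all _ fun x => by
      rw [Real.norm_eq_abs]; exact Real.abs_cos_le_one _

lemma CC_abs {ρ : ℝ} (hρ : 0 ≤ ρ) (t : ℝ) : |CC ρ t| ≤ π * ρ ^ 2 := by
  unfold CC
  have h := norm_setIntegral_le_of_norm_le_const (s := ball (0 : ℂ) ρ)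
    (f := fun x : ℂ => Real.cos (2 * x.im / t))
    (C := 1) (measure_ball_lt_top (μ := volume)) (fun x _ => by
      rw [Real.norm_eq_abs]; exact Real.abs_cos_le_one _)
  rw [one_mul, vol_ball_C hρ] at h
  exact h

lemma CC_lower {ρ : ℝ} (hρ : 0 ≤ ρ) {t : ℝ} (ht : 0 < t) :
    π * ρ ^ 2 * (1 - 2 * ρ ^ 2 / t ^ 2) ≤ CC ρ t := by
  unfold CC
  have h : ∫ x in ball (0 : ℂ) ρ, (1 - 2 * ρ ^ 2 / t ^ 2) ≤
      ∫ x in ball (0 : ℂ) ρ, Real.cos (2 * x.im / t) := by
    refine setIntegral_mono_on ?_ (cos_intOn ρ t) measurableSet_ball fun x hx => ?_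
    · exact integrableOn_const (by exact (measure_ball_lt_top (μ := volume)).ne) (by simp)
    · rw [mem_ball_zero_iff] at hx
      have h1 := Real.one_sub_sq_div_two_le_cos (x := 2 * x.im / t)
      have h2 : x.im ^ 2 ≤ ρ ^ 2 := by
        have := Complex.abs_im_le_norm x
        rw [← sq_abs x.im]
        exact pow_le_pow_left₀ (abs_nonneg _) (by linarith) 2
      have h3 : (2 * x.im / t) ^ 2 / 2 ≤ 2 * ρ ^ 2 / t ^ 2 := by
        rw [div_pow, div_div, div_le_div_iff₀ (by positivity) (by positivity)]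
        have ht2 : 0 < t ^ 2 := by positivity
        nlinarith
      linarith
  rw [setIntegral_const, vol_ball_C hρ, smul_eq_mul] at h
  exact h

lemma im_sq_int : ∫ x in ball (0 : ℂ) 1, x.im ^ 2 = π / 4 := by
  have h := integral_polar_mul_real (fun r => (Iio (1 : ℝ)).indicator (fun r => r ^ 2) r)
    (fun θ => Real.sin θ ^ 2)
  have e1 : ∫ r in Ioi (0 : ℝ), r * (Iio (1 : ℝ)).indicator (fun r => r ^ 2) r = 1 / 4 := by
    have e : ∀ r : ℝ, r * (Iio (1 : ℝ)).indicator (fun r => r ^ 2) r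
        = (Iio (1 : ℝ)).indicator (fun r => r ^ 3) r := by
      intro r
      by_cases hr : r ∈ Iio (1 : ℝ)
      · rw [indicator_of_mem hr, indicator_of_mem hr]; ring
      · rw [indicator_of_notMem hr, indicator_of_notMem hr, mul_zero]
    simp_rw [e]
    rw [setIntegral_indicator measurableSet_Iio, Ioi_inter_Iio, ← integral_Ioc_eq_integral_Ioo,
      ← intervalIntegral.integral_of_le zero_le_one, integral_pow]
    norm_num
  have e2 : ∫ θ in Ioo (-π) π, Real.sin θ ^ 2 = π := by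
    rw [← integral_Ioc_eq_integral_Ioo,
      ← intervalIntegral.integral_of_le (by linarith [Real.pi_pos]), integral_sin_sq]
    simp
  rw [e1, e2] at h
  rw [← integral_indicator measurableSet_ball]
  rw [show π / 4 = 1 / 4 * π by ring, ← h]
  refine integral_congr_ae (ae_of_all _ fun z => ?_)
  simp only
  have him : z.im = ‖z‖ * Real.sin (Complex.arg z) := by
    rcases eq_or_ne z 0 with rfl | hz
    · simp
    · rw [Complex.sin_arg]
      field_simp [norm_ne_zero_iff.2 hz]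
  by_cases hz : z ∈ ball (0 : ℂ) 1
  · have hz' : ‖z‖ ∈ Iio (1 : ℝ) := mem_ball_zero_iff.1 hz
    rw [indicator_of_mem hz, indicator_of_mem hz']
    nth_rewrite 1 [him]
    ring
  · have hz' : ‖z‖ ∉ Iio (1 : ℝ) := fun h => hz (mem_ball_zero_iff.2 h)
    rw [indicator_of_notMem hz, indicator_of_notMem hz', zero_mul]

lemma CC_upper {t : ℝ} (ht : 3 ≤ t) : CC 1 t ≤ π * (1 - 1 / 5 / t ^ 2) := by
  unfold CC
  have ht0 : 0 < t := by linarith
  have hi : IntegrableOn (fun x : ℂ => x.im ^ 2) (ball (0 : ℂ) 1) := by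
    refine Integrable.mono' (g := fun _ => (1 : ℝ)) ?_ ?_ ?_
    · exact integrableOn_const (by exact (measure_ball_lt_top (μ := volume)).ne) (by simp)
    · exact (Complex.continuous_im.pow 2).aestronglyMeasurable
    · refine (ae_restrict_iff' measurableSet_ball).2 (ae_of_all _ fun x hx => ?_)
      rw [mem_ball_zero_iff] at hx
      have := Complex.abs_im_le_norm x
      rw [Real.norm_of_nonneg (by positivity), ← sq_abs]
      exact pow_le_one₀ (abs_nonneg _) (by linarith)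
  have h : ∫ x in ball (0 : ℂ) 1, Real.cos (2 * x.im / t) ≤
      ∫ x in ball (0 : ℂ) 1, (1 - 4 / 5 / t ^ 2 * x.im ^ 2) := by
    refine setIntegral_mono_on (cos_intOn 1 t) ?_ measurableSet_ball fun x hx => ?_
    · exact (integrableOn_const (by exact (measure_ball_lt_top (μ := volume)).ne) (by simp)).sub
        (hi.const_mul _)
    · rw [mem_ball_zero_iff] at hx
      have h0 := Complex.abs_im_le_norm x
      have h1 : |2 * x.im / t| ≤ π := by
        rw [abs_div, abs_mul, abs_of_pos ht0, abs_of_pos (by norm_num : (0 : ℝ) < 2),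
          div_le_iff₀ ht0]
        nlinarith [Real.pi_gt_three]
      have h2 := Real.cos_le_one_sub_mul_cos_sq h1
      have h3 : 4 / 5 / t ^ 2 * x.im ^ 2 ≤ 2 / π ^ 2 * (2 * x.im / t) ^ 2 := by
        have hpi : π ^ 2 < 10 := by
          have := Real.pi_lt_d2
          nlinarith [Real.pi_pos]
        have h4 : (4 : ℝ) / 5 ≤ 8 / π ^ 2 := by
          rw [div_le_div_iff₀ (by norm_num) (by positivity)]
          linarith
        have e : 2 / π ^ 2 * (2 * x.im / t) ^ 2 = 8 / π ^ 2 / t ^ 2 * x.im ^ 2 := by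
          field_simp
          ring
        rw [e]
        gcongr
      linarith
  refine h.trans (le_of_eq ?_)
  have hc : Integrable (fun _ : ℂ => (1 : ℝ)) (volume.restrict (ball (0 : ℂ) 1)) :=
    integrableOn_const (by exact (measure_ball_lt_top (μ := volume)).ne) (by simp)
  have hi' : Integrable (fun x : ℂ => 4 / 5 / t ^ 2 * x.im ^ 2) (volume.restrict (ball (0 : ℂ) 1)) :=
    hi.const_mul _
  rw [integral_sub hc hi', integral_const_mul, im_sq_int, setIntegral_const,
    vol_ball_C zero_le_one]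
  simp only [smul_eq_mul]
  ring

/-- the normalised difference has a positive limit -/
lemma diff_pos : ∃ δ : ℝ, 0 < δ ∧ ∃ N : ℕ, 0 < N ∧ ∀ m : ℕ, N ≤ m →
    δ ≤ (dd (1 / 4) m).re / (π * (1 / 4) ^ 2) - (dd 1 m).re / (π * 1 ^ 2) := by
  have hCCm : ∀ ρ : ℝ, Measurable (CC ρ) := by
    intro ρ
    have h : StronglyMeasurable (Function.uncurry fun (t : ℝ) (x : ℂ) =>
        Real.cos (2 * x.im / t)) := by
      have : Measurable fun p : ℝ × ℂ => Real.cos (2 * p.2.im / p.1) := by fun_prop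
      exact this.stronglyMeasurable
    exact (h.integral_prod_right (ν := volume.restrict (ball (0 : ℂ) ρ))).measurable
  have hBBm : ∀ ρ : ℝ, StronglyMeasurable (BB ρ) := by
    intro ρ
    have h : StronglyMeasurable (Function.uncurry fun (t : ℝ) (x : ℂ) =>
        (chi t : ℂ) * Complex.exp (-(2 * x.im / t : ℝ) * Complex.I)) := by
      have h1 : Measurable fun p : ℝ × ℂ => ((chi p.1 : ℝ) : ℂ) :=
        Complex.measurable_ofReal.comp (chi_cont.measurable.comp measurable_fst)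
      have h2 : Measurable fun p : ℝ × ℂ => Complex.exp (-(2 * p.2.im / p.1 : ℝ) * Complex.I) := by
        fun_prop
      exact (h1.mul h2).stronglyMeasurable
    exact h.integral_prod_right (ν := volume.restrict (ball (0 : ℂ) ρ))
  have hBBn : ∀ ρ : ℝ, 0 ≤ ρ → ∀ t : ℝ, ‖BB ρ t‖ ≤ chi t * (π * ρ ^ 2) := by
    intro ρ hρ t
    unfold BB
    have h := norm_setIntegral_le_of_norm_le_const (s := ball (0 : ℂ) ρ)
      (f := fun x : ℂ => (chi t : ℂ) * Complex.exp (-(2 * x.im / t : ℝ) * Complex.I))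
      (C := chi t) (measure_ball_lt_top (μ := volume)) (fun x _ => by
        rw [norm_mul, Complex.norm_real, Real.norm_of_nonneg (chi_nonneg t), ← Complex.ofReal_neg,
          Complex.norm_exp_ofReal_mul_I, mul_one])
    rw [vol_ball_C hρ] at h
    exact h
  have hint : ∀ ρ : ℝ, 0 ≤ ρ → IntegrableOn (fun t : ℝ => ((t⁻¹ : ℝ) : ℂ) * BB ρ t) (Ioi 0) := by
    intro ρ hρ
    refine Integrable.mono' (g := fun t => (Ioo (3 : ℝ) 5).indicator (fun _ => π * ρ ^ 2) t)
      ?_ ?_ ?_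
    · have h1 : IntegrableOn (fun _ : ℝ => π * ρ ^ 2) (Ioo (3 : ℝ) 5) :=
        integrableOn_const (by simp) (by exact enorm_ne_top)
      exact (h1.integrable_indicator measurableSet_Ioo).integrableOn
    · exact ((by fun_prop : Measurable fun t : ℝ => ((t⁻¹ : ℝ) : ℂ)).mul
        (hBBm ρ).measurable).aestronglyMeasurable
    · refine (ae_restrict_iff' measurableSet_Ioi).2 (ae_of_all _ fun t ht => ?_)
      have ht0 : (0 : ℝ) < t := ht
      have h1 := hBBn ρ hρ t
      by_cases h2 : t ∈ Ioo (3 : ℝ) 5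
      · rw [indicator_of_mem h2, norm_mul, Complex.norm_real, norm_inv, Real.norm_of_nonneg ht0.le]
        have h4 : t⁻¹ ≤ 1 := inv_le_one_of_one_le₀ (by linarith [h2.1])
        have h5 : ‖BB ρ t‖ ≤ π * ρ ^ 2 := h1.trans
          (mul_le_of_le_one_left (by positivity) (chi_le t))
        calc t⁻¹ * ‖BB ρ t‖ ≤ 1 * (π * ρ ^ 2) := mul_le_mul h4 h5 (norm_nonneg _) (by norm_num)
          _ = _ := one_mul _
      · rw [indicator_of_notMem h2]
        rw [chi_zero h2, zero_mul] at h1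
        rw [norm_mul, le_antisymm h1 (norm_nonneg _), mul_zero]
  set L : ℝ → ℝ := fun ρ => (∫ t in Ioi (0 : ℝ), ((t⁻¹ : ℝ) : ℂ) * BB ρ t).re with hL
  have hre : ∀ ρ : ℝ, 0 ≤ ρ → L ρ = ∫ t in Ioi (0 : ℝ), t⁻¹ * (chi t * CC ρ t) := by
    intro ρ hρ
    have h := (integral_re (hint ρ hρ)).symm
    simp only [RCLike.re_eq_complex_re] at h
    rw [hL]
    simp only
    rw [h]
    refine setIntegral_congr_fun measurableSet_Ioi fun t _ => ?_
    rw [Complex.re_ofReal_mul, BB_re]
  have hintR : ∀ ρ : ℝ, 0 ≤ ρ → IntegrableOn (fun t : ℝ => t⁻¹ * (chi t * CC ρ t)) (Ioi 0) := by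
    intro ρ hρ
    refine ((hint ρ hρ).re).congr (ae_of_all _ fun t => ?_)
    simp only [RCLike.re_eq_complex_re]
    rw [Complex.re_ofReal_mul, BB_re]
  have hpi := Real.pi_pos
  have hkey : 3 / 40 / 125 * ∫ t in Ioi (0 : ℝ), chi t ≤ L (1 / 4) / (π * (1 / 4) ^ 2)
      - L 1 / (π * 1 ^ 2) := by
    rw [hre _ (by norm_num), hre _ (by norm_num), ← integral_div, ← integral_div,
      ← integral_sub ((hintR _ (by norm_num)).div_const _) ((hintR _ (by norm_num)).div_const _),
      ← integral_const_mul]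
    have hchi : IntegrableOn chi (Ioi 0) := (chi_cont.integrable_of_hasCompactSupport
      bump.hasCompactSupport).integrableOn
    refine setIntegral_mono_on (hchi.const_mul _)
      (((hintR _ (by norm_num)).div_const _).sub ((hintR _ (by norm_num)).div_const _))
      measurableSet_Ioi fun t ht => ?_
    have ht0 : (0 : ℝ) < t := ht
    by_cases h2 : t ∈ Ioo (3 : ℝ) 5
    · have hl := CC_lower (ρ := 1 / 4) (by norm_num) ht0
      have hu := CC_upper h2.1.le
      have hc := chi_nonneg t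
      have e1 : t⁻¹ * (chi t * CC (1 / 4) t) / (π * (1 / 4) ^ 2) - t⁻¹ * (chi t * CC 1 t) / (π * 1 ^ 2)
          = t⁻¹ * chi t * (CC (1 / 4) t / (π * (1 / 4) ^ 2) - CC 1 t / π) := by
        field_simp
      rw [e1]
      have h3 : 1 - 2 * (1 / 4) ^ 2 / t ^ 2 ≤ CC (1 / 4) t / (π * (1 / 4) ^ 2) := by
        rw [le_div_iff₀ (by positivity)]
        linarith
      have h4 : CC 1 t / π ≤ 1 - 1 / 5 / t ^ 2 := by
        rw [div_le_iff₀ hpi]
        linarith
      have h5 : 3 / 40 / t ^ 2 ≤ CC (1 / 4) t / (π * (1 / 4) ^ 2) - CC 1 t / π := by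
        have : 3 / 40 / t ^ 2 = (1 - 2 * (1 / 4) ^ 2 / t ^ 2) - (1 - 1 / 5 / t ^ 2) := by ring
        rw [this]
        linarith
      have h6 : (3 : ℝ) / 40 / 125 ≤ t⁻¹ * (3 / 40 / t ^ 2) := by
        have h7 : t⁻¹ * (3 / 40 / t ^ 2) = 3 / 40 / t ^ 3 := by
          field_simp
        rw [h7]
        have h8 : t ^ 3 ≤ 125 := by
          have := pow_le_pow_left₀ ht0.le h2.2.le 3
          norm_num at this ⊢
          exact this
        gcongr
      calc 3 / 40 / 125 * chi t ≤ t⁻¹ * (3 / 40 / t ^ 2) * chi t := by gcongr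
        _ = t⁻¹ * chi t * (3 / 40 / t ^ 2) := by ring
        _ ≤ _ := by gcongr
    · rw [chi_zero h2]
      simp
  have hlim : Tendsto (fun m : ℕ => (dd (1 / 4) m).re / (π * (1 / 4) ^ 2)
      - (dd 1 m).re / (π * 1 ^ 2)) atTop (𝓝 (L (1 / 4) / (π * (1 / 4) ^ 2) - L 1 / (π * 1 ^ 2))) := by
    have h1 := (Complex.continuous_re.tendsto _).comp
      (dd_tendsto (ρ := 1 / 4) (by norm_num) (by norm_num))
    have h2 := (Complex.continuous_re.tendsto _).comp
      (dd_tendsto (ρ := 1) (by norm_num) (by norm_num))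
    exact (h1.div_const _).sub (h2.div_const _)
  have hpos : 0 < L (1 / 4) / (π * (1 / 4) ^ 2) - L 1 / (π * 1 ^ 2) := by
    refine lt_of_lt_of_le ?_ hkey
    have := chi_int_pos
    positivity
  refine ⟨(L (1 / 4) / (π * (1 / 4) ^ 2) - L 1 / (π * 1 ^ 2)) / 2, by linarith, ?_⟩
  have hev := hlim.eventually (lt_mem_nhds (half_lt_self hpos))
  obtain ⟨N, hN⟩ := eventually_atTop.1 hev
  exact ⟨N + 1, Nat.succ_pos _, fun m hm => (hN m (by omega)).le⟩

end Pool.Agent.R247.BM
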