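import Pool.Agent.R247.BM.E

/-! The test functions `f_J` and the unbounded mean oscillation. -/

set_option autoImplicit false

open MeasureTheory Set Filter Topology Metric
open scoped ENNReal Real

namespace Pool.Agent.R247.BM

/-- the test function -/
noncomputable def fJ (N J : ℕ) (w : ℂ) : ℝ := ∑ j ∈ Finset.range J, (Phi (4 ^ j * N) w).re

lemma mj_pos {N : ℕ} (hN : 0 < N) (j : ℕ) : 0 < 4 ^ j * N := by positivity

lemma fJ_smooth {N : ℕ} (hN : 0 < N) (J : ℕ) : ContDiff ℝ 1 (fJ N J) := by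
  unfold fJ
  refine ContDiff.sum fun j _ => ?_
  exact Complex.reCLM.contDiff.comp (Phi_smooth (mj_pos hN j))

lemma fJ_zero {N : ℕ} (hN : 0 < N) (J : ℕ) {w : ℂ}
    (h : ‖w‖ ≤ 3 ∨ 5 * (4 ^ J * N) ≤ ‖w‖) : fJ N J w = 0 := by
  unfold fJ
  refine Finset.sum_eq_zero fun j hj => ?_
  have hj' : j < J := Finset.mem_range.1 hj
  rw [Phi_zero (mj_pos hN j), Complex.zero_re]
  have h1 : (1 : ℝ) ≤ ((4 ^ j * N : ℕ) : ℝ) := by exact_mod_cast mj_pos hN j
  rcases h with h | h
  · left; linarith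
  · right
    refine le_trans ?_ h
    push_cast
    have h2 : (4 : ℝ) ^ j ≤ 4 ^ J := pow_le_pow_right₀ (by norm_num) hj'.le
    gcongr

lemma fJ_supp {N : ℕ} (hN : 0 < N) (J : ℕ) : HasCompactSupport (fJ N J) := by
  refine HasCompactSupport.intro (isCompact_closedBall (0 : ℂ) (5 * (4 ^ J * N))) fun w hw => ?_
  rw [mem_closedBall_zero_iff, not_le] at hw
  exact fJ_zero hN J (Or.inr hw.le)

lemma fJ_bound {N : ℕ} (hN : 0 < N) (J : ℕ) (w : ℂ) : |fJ N J w| ≤ 1 := by
  by_cases h : ∃ i ∈ Finset.range J, Phi (4 ^ i * N) w ≠ 0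
  · obtain ⟨i, hi, hne⟩ := h
    have hN' : (0 : ℝ) < N := by exact_mod_cast hN
    have hband : ∀ k : ℕ, Phi (4 ^ k * N) w ≠ 0 → 3 * (4 ^ k * N : ℝ) < ‖w‖ ∧
        ‖w‖ < 5 * (4 ^ k * N : ℝ) := by
      intro k hk
      by_contra hc
      apply hk
      apply Phi_zero (mj_pos hN k)
      push_cast
      by_cases h1 : ‖w‖ ≤ 3 * (4 ^ k * N)
      · exact Or.inl h1
      · right
        by_contra h2
        exact hc ⟨not_le.1 h1, not_le.1 h2⟩
    have hother : ∀ k ∈ Finset.range J, k ≠ i → (Phi (4 ^ k * N) w).re = 0 := by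
      intro k _ hki
      by_contra hc
      have hk : Phi (4 ^ k * N) w ≠ 0 := fun h0 => hc (by rw [h0, Complex.zero_re])
      have h1 := hband i hne
      have h2 := hband k hk
      rcases lt_or_gt_of_ne hki with hlt | hlt
      · have h3 : (4 : ℝ) ^ (k + 1) ≤ 4 ^ i := pow_le_pow_right₀ (by norm_num) hlt
        rw [pow_succ] at h3
        nlinarith [h1.1, h2.2, mul_le_mul_of_nonneg_right h3 hN'.le]
      · have h3 : (4 : ℝ) ^ (i + 1) ≤ 4 ^ k := pow_le_pow_right₀ (by norm_num) hlt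
        rw [pow_succ] at h3
        nlinarith [h1.2, h2.1, mul_le_mul_of_nonneg_right h3 hN'.le]
    unfold fJ
    rw [Finset.sum_eq_single_of_mem i hi hother]
    exact (Complex.abs_re_le_norm _).trans (Phi_norm_le _ _)
  · push Not at h
    have : fJ N J w = 0 := by
      unfold fJ
      exact Finset.sum_eq_zero fun j hj => by rw [h j hj, Complex.zero_re]
    rw [this]
    norm_num

/-- the pairing of the kernel with one test function and a ball -/
lemma pair_one (N : ℕ) (hN : 0 < N) (ρ : ℝ) (j : ℕ) :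
    ∫ y : ℂ, (ker N hN y : ℂ) * FF ρ (4 ^ j * N) y = dd ρ (4 ^ j * N) * ((π / (j + 1) : ℝ) : ℂ) := by
  rw [← om_fr N hN j]
  have h := integral_polar_mul (fun r => (((r ^ 2)⁻¹ : ℝ) : ℂ) * FF ρ (4 ^ j * N) r)
    (fun θ => (om N hN θ : ℂ) * Complex.exp ((fr N j : ℕ) * θ * Complex.I))
  have e1 : dd ρ (4 ^ j * N) = ∫ r in Ioi (0 : ℝ), (r : ℂ) *
      ((((r ^ 2)⁻¹ : ℝ) : ℂ) * FF ρ (4 ^ j * N) r) := by
    unfold dd
    refine setIntegral_congr_fun measurableSet_Ioi fun r hr => ?_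
    have hr' : (r : ℂ) ≠ 0 := by exact_mod_cast (ne_of_gt hr)
    push_cast
    field_simp
  rw [e1, ← h]
  refine integral_congr_ae (ae_of_all _ fun y => ?_)
  simp only
  rcases eq_or_ne y 0 with rfl | hy
  · simp [ker]
  · have hc : ‖Complex.exp (Complex.arg y * Complex.I)‖ = 1 := Complex.norm_exp_ofReal_mul_I _
    have hy2 : Complex.exp (Complex.arg y * Complex.I) * (‖y‖ : ℂ) = y := by
      rw [mul_comm]
      exact Complex.norm_mul_exp_arg_mul_I y
    have h2 : FF ρ (4 ^ j * N) y = Complex.exp (Complex.arg y * Complex.I) ^ (2 * (4 ^ j * N))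
        * FF ρ (4 ^ j * N) (‖y‖ : ℂ) := by
      rw [← FF_rot ρ _ hc, hy2]
    rw [h2, ← Complex.exp_nat_mul]
    unfold ker fr
    push_cast
    ring_nf

lemma FF_int (N : ℕ) (hN : 0 < N) {ρ : ℝ} (hρ0 : 0 ≤ ρ) (hρ : ρ ≤ 1) (j : ℕ) :
    Integrable (fun y : ℂ => (ker N hN y : ℂ) * FF ρ (4 ^ j * N) y) := by
  have hk := ker_intOn N hN (a := 1) (b := 6 * (4 ^ j * N)) one_pos
  have hm : MeasurableSet {z : ℂ | ‖z‖ ∈ Icc (1 : ℝ) (6 * (4 ^ j * N))} :=
    measurable_norm measurableSet_Icc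
  rw [← integrable_indicator_iff hm] at hk
  refine Integrable.mono' (hk.norm.const_mul (π * ρ ^ 2)) ?_ (ae_of_all _ fun y => ?_)
  · exact ((Complex.measurable_ofReal.comp (ker_meas N hN)).mul
      (FF_meas ρ (mj_pos hN j)).measurable).aestronglyMeasurable
  · have hm1 : (1 : ℝ) ≤ 4 ^ j * N := by exact_mod_cast mj_pos hN j
    by_cases hy : y ∈ {z : ℂ | ‖z‖ ∈ Icc (1 : ℝ) (6 * (4 ^ j * N))}
    · rw [indicator_of_mem hy, norm_mul, Complex.norm_real, mul_comm]
      exact mul_le_mul_of_nonneg_right (FF_norm ρ hρ0 _ _) (norm_nonneg _)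
    · rw [indicator_of_notMem hy, FF_zero hρ (mj_pos hN j), mul_zero, norm_zero, norm_zero, mul_zero]
      push_cast
      by_contra hc
      push Not at hc
      apply hy
      exact ⟨by linarith [hc.1], hc.2.le⟩

/-- the integral over a ball -/
lemma ball_integral (N : ℕ) (hN : 0 < N) (J : ℕ) {ρ : ℝ} (hρ0 : 0 ≤ ρ) (hρ : ρ ≤ 1) :
    ∫ x in ball (0 : ℂ) ρ, (∫ y : ℂ, ker N hN y * fJ N J (x - y))
      = ∑ j ∈ Finset.range J, (π / (j + 1)) * (dd ρ (4 ^ j * N)).re := by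
  have hfc : Continuous (fJ N J) := (fJ_smooth hN J).continuous
  -- Fubini
  have hk := ker_intOn N hN (a := 1) (b := 5 * (4 ^ J * N) + 1) one_pos
  have hm : MeasurableSet {z : ℂ | ‖z‖ ∈ Icc (1 : ℝ) (5 * (4 ^ J * N) + 1)} :=
    measurable_norm measurableSet_Icc
  rw [← integrable_indicator_iff hm] at hk
  have hprod : Integrable (Function.uncurry fun (x y : ℂ) => ker N hN y * fJ N J (x - y))
      ((volume.restrict (ball (0 : ℂ) ρ)).prod volume) := by
    have hfin : IsFiniteMeasure (volume.restrict (ball (0 : ℂ) ρ)) :=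
      ⟨by rw [Measure.restrict_apply_univ]; exact measure_ball_lt_top⟩
    have h1 := hk.norm.comp_snd (μ := volume.restrict (ball (0 : ℂ) ρ))
    refine h1.mono' ?_ ?_
    · refine Measurable.aestronglyMeasurable ?_
      exact ((ker_meas N hN).comp measurable_snd).mul
        (hfc.measurable.comp (measurable_fst.sub measurable_snd))
    · have hb : ∀ᵐ p : ℂ × ℂ ∂(volume.restrict (ball (0 : ℂ) ρ)).prod volume,
          p.1 ∈ ball (0 : ℂ) ρ := by
        have h2 : ∀ᵐ x ∂(volume.restrict (ball (0 : ℂ) ρ)), x ∈ ball (0 : ℂ) ρ :=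
          ae_restrict_mem measurableSet_ball
        exact Measure.quasiMeasurePreserving_fst.ae h2
      filter_upwards [hb] with p hp
      rw [mem_ball_zero_iff] at hp
      simp only [Function.uncurry]
      by_cases hy : p.2 ∈ {z : ℂ | ‖z‖ ∈ Icc (1 : ℝ) (5 * (4 ^ J * N) + 1)}
      · rw [indicator_of_mem hy, norm_mul]
        exact mul_le_of_le_one_right (norm_nonneg _) (fJ_bound hN J _)
      · rw [indicator_of_notMem hy, fJ_zero hN J, mul_zero, norm_zero]
        by_contra hc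
        push Not at hc
        apply hy
        have h3 := norm_sub_le p.1 p.2
        have h4 : ‖p.2‖ ≤ ‖p.1‖ + ‖p.1 - p.2‖ := by
          calc ‖p.2‖ = ‖p.1 - (p.1 - p.2)‖ := by rw [sub_sub_cancel]
            _ ≤ _ := norm_sub_le _ _
        exact ⟨by linarith [hc.1], by linarith [hc.2]⟩
  rw [integral_integral_swap hprod]
  have h3 : ∀ y : ℂ, ∫ x in ball (0 : ℂ) ρ, ker N hN y * fJ N J (x - y)
      = ∑ j ∈ Finset.range J, ((ker N hN y : ℂ) * FF ρ (4 ^ j * N) y).re := by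
    intro y
    rw [integral_const_mul]
    simp_rw [Complex.re_ofReal_mul]
    rw [← Finset.mul_sum]
    congr 1
    unfold fJ FF
    have hi : ∀ j : ℕ, IntegrableOn (fun x : ℂ => Phi (4 ^ j * N) (x - y)) (ball (0 : ℂ) ρ) := by
      intro j
      refine Integrable.mono' (g := fun _ => (1 : ℝ)) ?_ ?_ ?_
      · exact integrableOn_const (by exact (measure_ball_lt_top (μ := volume)).ne) (by simp)
      · exact ((Phi_cont (mj_pos hN j)).comp (continuous_id.sub continuous_const)).aestronglyMeasurable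
      · exact ae_of_all _ fun x => Phi_norm_le _ _
    have hi' : ∀ j ∈ Finset.range J, Integrable (fun x : ℂ => (Phi (4 ^ j * N) (x - y)).re)
        (volume.restrict (ball (0 : ℂ) ρ)) := fun j _ => (hi j).re
    rw [integral_finsetSum _ hi']
    refine Finset.sum_congr rfl fun j _ => ?_
    exact integral_re (hi j)
  simp_rw [h3]
  have hF' : ∀ j ∈ Finset.range J, Integrable
      (fun y : ℂ => ((ker N hN y : ℂ) * FF ρ (4 ^ j * N) y).re) :=
    fun j _ => (FF_int N hN hρ0 hρ j).re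
  rw [integral_finsetSum _ hF']
  refine Finset.sum_congr rfl fun j _ => ?_
  have h4 := integral_re (FF_int N hN hρ0 hρ j)
  simp only [RCLike.re_eq_complex_re] at h4
  rw [h4, pair_one, mul_comm, Complex.re_ofReal_mul]

/-- inside the unit ball the principal value is an absolutely convergent integral -/
lemma pv_inside (N : ℕ) (hN : 0 < N) (J : ℕ) {x : ℂ} (hx : x ∈ ball (0 : ℂ) 1) {L : ℝ}
    (hL : Tendsto (fun ε : ℝ => ∫ y in {y : ℂ | ε < ‖y‖}, ker N hN y * fJ N J (x - y))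
      (𝓝[>] 0) (𝓝 L)) : L = ∫ y : ℂ, ker N hN y * fJ N J (x - y) := by
  rw [mem_ball_zero_iff] at hx
  refine tendsto_nhds_unique hL (Tendsto.congr' ?_ tendsto_const_nhds)
  filter_upwards [Ioo_mem_nhdsGT (zero_lt_one : (0 : ℝ) < 1)] with ε hε
  symm
  refine setIntegral_eq_integral_of_forall_compl_eq_zero fun y hy => ?_
  have hy' : ‖y‖ ≤ ε := by simpa using hy
  rw [fJ_zero hN J, mul_zero]
  left
  have := norm_sub_le x y
  linarith [hε.2]

/-- **Unbounded mean oscillation.** -/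
theorem mainC : ∃ (N : ℕ) (hN : 0 < N), ∀ C : ℝ, ∃ f : ℂ → ℝ, ContDiff ℝ 1 f ∧
    HasCompactSupport f ∧ (∀ x, |f x| ≤ 1) ∧ ∀ g : ℂ → ℝ,
      (∀ x, Tendsto (fun ε : ℝ => ∫ y in {y : ℂ | ε < ‖y‖}, ker N hN y * f (x - y))
        (𝓝[>] 0) (𝓝 (g x))) → IntegrableOn g (ball 0 1) →
      C < ⨍ x in ball (0 : ℂ) 1, |g x - ⨍ y in ball (0 : ℂ) 1, g y| := by
  obtain ⟨δ, hδ, N, hN, hdiff⟩ := diff_pos
  refine ⟨N, hN, fun C => ?_⟩
  -- choose J
  have hdiv : Tendsto (fun J : ℕ => ∑ j ∈ Finset.range J, π * δ * (1 / ((j : ℝ) + 1))) atTop atTop := by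
    simp_rw [← Finset.mul_sum]
    exact Real.tendsto_sum_range_one_div_nat_succ_atTop.const_mul_atTop (by positivity)
  obtain ⟨J, hJ⟩ := (hdiv.eventually (eventually_gt_atTop (16 * C))).exists
  refine ⟨fJ N J, fJ_smooth hN J, fJ_supp hN J, fJ_bound hN J, fun g hg hgi => ?_⟩
  have hpi := Real.pi_pos
  set a : ℝ := ⨍ y in ball (0 : ℂ) 1, g y with ha
  have hval : ∀ ρ : ℝ, 0 < ρ → ρ ≤ 1 → ∫ x in ball (0 : ℂ) ρ, g x
      = ∑ j ∈ Finset.range J, (π / (j + 1)) * (dd ρ (4 ^ j * N)).re := by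
    intro ρ hρ0 hρ
    rw [← ball_integral N hN J hρ0.le hρ]
    refine setIntegral_congr_fun measurableSet_ball fun x hx => ?_
    exact pv_inside N hN J (ball_subset_ball hρ hx) (hg x)
  have ha1 : a = (π * 1 ^ 2)⁻¹ * ∑ j ∈ Finset.range J, (π / (j + 1)) * (dd 1 (4 ^ j * N)).re := by
    rw [ha, setAverage_eq, hval 1 one_pos le_rfl, vol_ball_C zero_le_one, smul_eq_mul]
  have h4 : ∫ x in ball (0 : ℂ) (1 / 4), (g x - a) ≤ ∫ x in ball (0 : ℂ) 1, |g x - a| := by
    have hi : IntegrableOn (fun x => g x - a) (ball (0 : ℂ) 1) :=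
      hgi.sub (integrableOn_const (by exact (measure_ball_lt_top (μ := volume)).ne)
        (by exact enorm_ne_top))
    have hsub : ball (0 : ℂ) (1 / 4) ⊆ ball (0 : ℂ) 1 := ball_subset_ball (by norm_num)
    calc ∫ x in ball (0 : ℂ) (1 / 4), (g x - a)
        ≤ ∫ x in ball (0 : ℂ) (1 / 4), |g x - a| :=
          setIntegral_mono_on (hi.mono_set hsub) (hi.mono_set hsub).abs measurableSet_ball
            fun x _ => le_abs_self _
      _ ≤ _ := setIntegral_mono_set hi.abs (ae_of_all _ fun x => abs_nonneg _)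
            hsub.eventuallyLE
  have h5 : ∫ x in ball (0 : ℂ) (1 / 4), (g x - a)
      = (∑ j ∈ Finset.range J, (π / (j + 1)) * (dd (1 / 4) (4 ^ j * N)).re)
        - π * (1 / 4) ^ 2 * a := by
    rw [integral_sub (hgi.mono_set (ball_subset_ball (by norm_num)))
      (integrableOn_const (by exact (measure_ball_lt_top (μ := volume)).ne)
        (by exact enorm_ne_top)), hval (1 / 4) (by norm_num) (by norm_num), setIntegral_const,
      vol_ball_C (by norm_num), smul_eq_mul]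
  have h6 : ∑ j ∈ Finset.range J, π * δ * (1 / ((j : ℝ) + 1)) ≤
      (π * (1 / 4) ^ 2)⁻¹ * ∫ x in ball (0 : ℂ) (1 / 4), (g x - a) := by
    rw [h5, mul_sub, ← mul_assoc, inv_mul_cancel₀ (by positivity), one_mul, ha1, Finset.mul_sum,
      Finset.mul_sum, ← Finset.sum_sub_distrib]
    refine Finset.sum_le_sum fun j _ => ?_
    have hm : N ≤ 4 ^ j * N := Nat.le_mul_of_pos_left _ (by positivity)
    have h7 := hdiff _ hm
    have h8 : (0 : ℝ) < π / (j + 1) := by positivity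
    calc π * δ * (1 / ((j : ℝ) + 1)) = π / (j + 1) * δ := by ring
      _ ≤ π / (j + 1) * ((dd (1 / 4) (4 ^ j * N)).re / (π * (1 / 4) ^ 2)
          - (dd 1 (4 ^ j * N)).re / (π * 1 ^ 2)) := mul_le_mul_of_nonneg_left h7 h8.le
      _ = _ := by
        rw [div_eq_inv_mul (dd (1 / 4) (4 ^ j * N)).re, div_eq_inv_mul (dd 1 (4 ^ j * N)).re]
        ring
  rw [setAverage_eq, vol_ball_C zero_le_one, smul_eq_mul]
  have h9 : 16 * C < (π * (1 / 4) ^ 2)⁻¹ * ∫ x in ball (0 : ℂ) 1, |g x - a| := by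
    refine lt_of_lt_of_le hJ (h6.trans ?_)
    exact mul_le_mul_of_nonneg_left h4 (by positivity)
  have e : (π * (1 / 4) ^ 2)⁻¹ = 16 * (π * 1 ^ 2)⁻¹ := by
    field_simp
    norm_num
  rw [e, mul_assoc] at h9
  linarith

end Pool.Agent.R247.BM
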